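import Pool.Agent.T9h57.QD.Spec2

/-!
# Basic properties of `ind`, `lw`, `ex`
-/

set_option autoImplicit false

namespace Pool.Agent.T9h57.QD

open Finset

theorem ind_true {p : Prop} (h : p) : ind p = 1 := by simp [ind, h]

theorem ind_false {p : Prop} (h : ¬ p) : ind p = 0 := by simp [ind, h]

theorem ind_nonneg (p : Prop) : 0 ≤ ind p := by unfold ind; split_ifs <;> norm_num

theorem ind_le_one (p : Prop) : ind p ≤ 1 := by unfold ind; split_ifs <;> norm_num

theorem ind_mono {p q : Prop} (h : p → q) : ind p ≤ ind q := by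
  by_cases hp : p
  · rw [ind_true hp, ind_true (h hp)]
  · rw [ind_false hp]; exact ind_nonneg q

theorem ind_congr {p q : Prop} (h : p ↔ q) : ind p = ind q := by rw [propext h]

theorem ind_and (p q : Prop) : ind (p ∧ q) = ind p * ind q := by
  by_cases hp : p <;> by_cases hq : q <;> simp [ind, hp, hq]

theorem Zs_nonneg (S : Finset ℕ) : 0 ≤ Zs S := sum_nonneg fun _ _ => by positivity

theorem lw_nonneg (S : Finset ℕ) (x : ℕ) : 0 ≤ lw S x := by
  unfold lw
  exact div_nonneg (by positivity) (Zs_nonneg S)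

theorem Zs_pos {S : Finset ℕ} (h : S.Nonempty) (h0 : 0 ∉ S) : 0 < Zs S := by
  apply sum_pos _ h
  intro x hx
  have : 0 < x := Nat.pos_of_ne_zero (fun e => h0 (e ▸ hx))
  positivity

theorem sum_lw {S : Finset ℕ} (h : S.Nonempty) (h0 : 0 ∉ S) : ∑ x ∈ S, lw S x = 1 := by
  unfold lw
  rw [← sum_div]
  exact div_self (Zs_pos h h0).ne'

theorem sum_lw_le (S : Finset ℕ) : ∑ x ∈ S, lw S x ≤ 1 := by
  unfold lw
  rw [← sum_div]
  exact div_self_le_one _

theorem lw_mul_self {S : Finset ℕ} {x : ℕ} (hx : x ≠ 0) : lw S x * (x : ℝ) = 1 / Zs S := by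
  have : (x : ℝ) ≠ 0 := by exact_mod_cast hx
  unfold lw
  field_simp

theorem zero_notMem_Kp (M a b : ℕ) : 0 ∉ Kp M a b := by simp [Kp]

theorem mem_Kp {M a b x : ℕ} : x ∈ Kp M a b ↔ a < x ∧ x ≤ b ∧ Nat.Coprime x M := by
  simp [Kp, and_assoc]

variable {n : ℕ} {S : Finset ℕ}

theorem ex_congr {f g : (Fin n → ℕ) → ℝ} (h : ∀ x, (∀ i, x i ∈ S) → f x = g x) :
    ex n S f = ex n S g := by
  unfold ex
  refine sum_congr rfl fun x hx => ?_
  rw [h x (by simpa using hx)]

theorem ex_nonneg {f : (Fin n → ℕ) → ℝ} (h : ∀ x, (∀ i, x i ∈ S) → 0 ≤ f x) : 0 ≤ ex n S f := by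
  unfold ex
  refine sum_nonneg fun x hx => mul_nonneg (prod_nonneg fun i _ => lw_nonneg _ _) ?_
  exact h x (by simpa using hx)

theorem ex_mono {f g : (Fin n → ℕ) → ℝ} (h : ∀ x, (∀ i, x i ∈ S) → f x ≤ g x) :
    ex n S f ≤ ex n S g := by
  unfold ex
  refine sum_le_sum fun x hx => mul_le_mul_of_nonneg_left ?_ (prod_nonneg fun i _ => lw_nonneg _ _)
  exact h x (by simpa using hx)

theorem ex_add (f g : (Fin n → ℕ) → ℝ) : ex n S (fun x => f x + g x) = ex n S f + ex n S g := by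
  unfold ex
  rw [← sum_add_distrib]
  exact sum_congr rfl fun x _ => by ring

theorem ex_sub (f g : (Fin n → ℕ) → ℝ) : ex n S (fun x => f x - g x) = ex n S f - ex n S g := by
  unfold ex
  rw [← sum_sub_distrib]
  exact sum_congr rfl fun x _ => by ring

theorem ex_mul_left (c : ℝ) (f : (Fin n → ℕ) → ℝ) : ex n S (fun x => c * f x) = c * ex n S f := by
  unfold ex
  rw [mul_sum]
  exact sum_congr rfl fun x _ => by ring

theorem ex_mul_right (c : ℝ) (f : (Fin n → ℕ) → ℝ) : ex n S (fun x => f x * c) = ex n S f * c := by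
  unfold ex
  rw [sum_mul]
  exact sum_congr rfl fun x _ => by ring

theorem ex_div (c : ℝ) (f : (Fin n → ℕ) → ℝ) : ex n S (fun x => f x / c) = ex n S f / c := by
  simp only [div_eq_mul_inv]
  exact ex_mul_right _ _

theorem ex_sum {α : Type} (s : Finset α) (f : α → (Fin n → ℕ) → ℝ) :
    ex n S (fun x => ∑ a ∈ s, f a x) = ∑ a ∈ s, ex n S (f a) := by
  unfold ex
  simp only [mul_sum]
  exact sum_comm

theorem ex_one_eq : ex n S (fun _ => 1) = (∑ x ∈ S, lw S x) ^ n := by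
  unfold ex
  simp only [mul_one]
  rw [← Finset.prod_univ_sum (fun _ : Fin n => S) (fun _ x => lw S x)]
  simp

theorem ex_const (h : S.Nonempty) (h0 : 0 ∉ S) (c : ℝ) : ex n S (fun _ => c) = c := by
  have := ex_mul_left (n := n) (S := S) c (fun _ => 1)
  simp only [mul_one] at this
  rw [this, ex_one_eq, sum_lw h h0]
  simp

theorem ex_const_le {c : ℝ} (hc : 0 ≤ c) : ex n S (fun _ => c) ≤ c := by
  have := ex_mul_left (n := n) (S := S) c (fun _ => 1)
  simp only [mul_one] at this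
  rw [this, ex_one_eq]
  have h1 : (∑ x ∈ S, lw S x) ^ n ≤ 1 :=
    pow_le_one₀ (sum_nonneg fun _ _ => lw_nonneg _ _) (sum_lw_le S)
  nlinarith

theorem ex_le_of_le {f : (Fin n → ℕ) → ℝ} {c : ℝ} (hc : 0 ≤ c) (h : ∀ x, (∀ i, x i ∈ S) → f x ≤ c) :
    ex n S f ≤ c := (ex_mono h).trans (ex_const_le hc)

/-- one slot. -/
theorem ex_one (f : (Fin 1 → ℕ) → ℝ) : ex 1 S f = ∑ x ∈ S, lw S x * f (fun _ => x) := by
  unfold ex
  refine Finset.sum_bij' (fun x _ => x 0) (fun x _ => fun _ => x) ?_ ?_ ?_ ?_ ?_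
  · intro x hx
    simp only [Fintype.mem_piFinset] at hx
    exact hx 0
  · intro x hx
    simpa using hx
  · intro x _
    funext i
    rw [Subsingleton.elim i 0]
  · intro x _
    rfl
  · intro x _
    have : (fun _ : Fin 1 => x 0) = x := by
      funext i
      rw [Subsingleton.elim i 0]
    simp [this]

/-- split off the first slot. -/
theorem ex_succ (f : (Fin (n + 1) → ℕ) → ℝ) :
    ex (n + 1) S f = ∑ a ∈ S, lw S a * ex n S (fun x => f (Fin.cons a x)) := by
  unfold ex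
  simp only [mul_sum]
  rw [← Finset.sum_product']
  symm
  refine Finset.sum_bij' (fun p _ => (Fin.cons p.1 p.2 : Fin (n + 1) → ℕ))
    (fun x _ => (x 0, Fin.tail x)) ?_ ?_ ?_ ?_ ?_
  · intro p hp
    simp only [mem_product, Fintype.mem_piFinset] at hp ⊢
    intro i
    refine Fin.cases ?_ (fun j => ?_) i
    · simpa using hp.1
    · simpa using hp.2 j
  · intro x hx
    simp only [mem_product, Fintype.mem_piFinset] at hx ⊢
    exact ⟨hx 0, fun j => hx j.succ⟩
  · intro p _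
    simp
  · intro x _
    simp
  · intro p _
    rw [Fin.prod_univ_succ]
    simp only [Fin.cons_zero, Fin.cons_succ]
    ring

/-- interchange of two expectations. -/
theorem ex_comm {k : ℕ} {Y : Finset ℕ} (f : (Fin n → ℕ) → (Fin k → ℕ) → ℝ) :
    ex n S (fun x => ex k Y (fun y => f x y)) = ex k Y (fun y => ex n S (fun x => f x y)) := by
  unfold ex
  simp only [mul_sum]
  rw [sum_comm]
  refine sum_congr rfl fun y _ => sum_congr rfl fun x _ => by ring

theorem abs_ex_le (f : (Fin n → ℕ) → ℝ) : |ex n S f| ≤ ex n S (fun x => |f x|) := by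
  unfold ex
  refine (abs_sum_le_sum_abs _ _).trans (sum_le_sum fun x _ => ?_)
  rw [abs_mul, abs_of_nonneg (prod_nonneg fun i _ => lw_nonneg _ _)]

theorem prod_pos_of_mem {M a b : ℕ} {x : Fin n → ℕ} (hx : ∀ i, x i ∈ Kp M a b) :
    0 < ∏ i, x i := by
  refine prod_pos fun i _ => ?_
  have := (mem_Kp.1 (hx i)).1
  omega

theorem prod_coprime_of_mem {M a b : ℕ} {x : Fin n → ℕ} (hx : ∀ i, x i ∈ Kp M a b) :
    Nat.Coprime (∏ i, x i) M :=
  Nat.Coprime.prod_left fun i _ => (mem_Kp.1 (hx i)).2.2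

theorem prod_le_of_mem {M a b : ℕ} {x : Fin n → ℕ} (hx : ∀ i, x i ∈ Kp M a b) :
    ∏ i, x i ≤ b ^ n := by
  calc ∏ i, x i ≤ ∏ _i : Fin n, b := prod_le_prod' fun i _ => (mem_Kp.1 (hx i)).2.1
    _ = b ^ n := by simp

theorem le_prod_of_mem {M a b : ℕ} {x : Fin n → ℕ} (hx : ∀ i, x i ∈ Kp M a b) :
    a ^ n ≤ ∏ i, x i := by
  calc a ^ n = ∏ _i : Fin n, a := by simp
    _ ≤ ∏ i, x i := prod_le_prod' fun i _ => (mem_Kp.1 (hx i)).1.le

/-- the sets are nonempty. -/
theorem Kp_nonempty {M a b : ℕ} (hM : 0 < M) (h : a + M ≤ b) : (Kp M a b).Nonempty := by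
  have h0 : a < M * (a / M + 1) := by
    have := Nat.div_add_mod a M
    have h2 := Nat.mod_lt a hM
    nlinarith
  by_cases hc : M * (a / M) + 1 > a
  · refine ⟨M * (a / M) + 1, mem_Kp.2 ⟨hc, ?_, ?_⟩⟩
    · have := Nat.mul_div_le a M
      omega
    · rw [Nat.coprime_mul_left_add_left]
      exact Nat.coprime_one_left M
  · refine ⟨M * (a / M + 1) + 1, mem_Kp.2 ⟨by omega, ?_, ?_⟩⟩
    · have := Nat.mul_div_le a M
      have h3 : M * (a / M + 1) = M * (a / M) + M := by ring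
      omega
    · rw [Nat.coprime_mul_left_add_left]
      exact Nat.coprime_one_left M

end Pool.Agent.T9h57.QD
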