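import Pool.Agent.T9h42.GF.Spec

/-!
# `D_1 C_n(ℚ)` is spanned by `Li_n(x)`: the pieces, part 1 (probability, linear algebra, real functions)
-/

set_option autoImplicit false

namespace Pool.Agent.T9h57.QD

open Finset Pool.Agent.T9h42.GF

section prob

variable {ι : Type} [Fintype ι] [DecidableEq ι] {Ω : ι → Type} [∀ i, Fintype (Ω i)]

/-- average for the product of the weights `p i`. -/
noncomputable def pav (p : ∀ i, Ω i → ℝ) (f : (∀ i, Ω i) → ℝ) : ℝ := ∑ y, (∏ i, p i (y i)) * f y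

/-- conditional expectation given the coordinates in `T`. -/
noncomputable def pce (p : ∀ i, Ω i → ℝ) (T : Finset ι) (f : (∀ i, Ω i) → ℝ) (x : ∀ i, Ω i) : ℝ :=
  pav p (fun y => f (mix T x y))

end prob

/-- PIECE `RobustVec` (vector valued version of `T9h42.GF.Robust`, several weights `W j`, weighted
product measure, error term; `mix`, `Deg` are from `T9h42/GF/Spec.lean`).

Proof (as for `Robust`). `g x = ∑_j ∑_{|U| ≤ 2r} |pce U (W j) x - 1|`, `b_T = pce T g`, `θ, ρ` small,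
`G = {x : b_T(x) ≤ θ ρ^(r-|T|) for all |T| ≤ r}`; `P(not G) ≤ #T E[g]/(θ ρ^r) ≤ η`, and for `x ∈ G`,
`|T| ≤ r`: `P_y(mix T x y ∉ G) ≤ (number of sets) ρ`. Claim: `F = 0` on `G`. Let `x` maximise
`∑_l |F_l|` on `G`, `M` the maximum. Choose `y` with `mix T x y ∈ G` for all `|T| ≤ r` and, for all
`|T|, |S| ≤ r`, `P_z(mix R (mix T x z) y ∉ G for some R ⊆ S) ≤ η₁`. Put
`F_S(z) = ∑_{T ⊆ S} (-1)^(|S|-|T|) F (mix T z y)`, so `F = ∑_{|S| ≤ r} F_S`; `F_S` depends on the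
coordinates in `S` only and is `≤ 2^r M` on `A_S = {z : mix R z y ∈ G for all R ⊆ S}`. On
`A = ⋂ A_S` we have `∑_l |F_l| ≤ C M`, so `|E[W_j Λ_j F 1_A | x_T]| ≤ δ C M E[W_j | x_T] ≤ 2 δ C M`.
On the other hand it differs from `Λ_j (pce T H x)`, `H = ∑_S F_S 1_{A_S}`, by at most `C (θ+η₁) M`
(marginals of `W_j` on `S ∪ T` given `x_T`). Since `H x = ∑_{|R| ≤ r} ∑_{T ⊆ R} (-1)^(|R|-|T|) pce T H x`
(degree `≤ r`) and `H x = F x`: `|Λ_j F x| ≤ C' (θ+η₁+δ) M` for all `j`, hence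
`M ≤ L C₀ C' (θ+η₁+δ) M`, `M = 0`. -/
def RobustVec : Prop :=
  ∀ (n r : ℕ) (C₀ η : ℝ), 0 < C₀ → 0 < η → ∃ δ : ℝ, 0 < δ ∧
    ∀ (ι : Type) [Fintype ι] [DecidableEq ι] (Ω : ι → Type) [∀ i, Fintype (Ω i)],
      Fintype.card ι ≤ n →
    ∀ p : ∀ i, Ω i → ℝ, (∀ i a, 0 ≤ p i a) → (∀ i, ∑ a, p i a = 1) →
    ∀ (J L : Type) [Fintype J] [Fintype L], Fintype.card J ≤ n → Fintype.card L ≤ n →
    ∀ (W : J → (∀ i, Ω i) → ℝ) (F : L → (∀ i, Ω i) → ℝ) (Λ : J → L → ℝ),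
      (∀ j x, 0 ≤ W j x) →
      (∀ (j : J) (U : Finset ι), U.card ≤ 2 * r → pav p (fun x => |pce p U (W j) x - 1|) ≤ δ) →
      (∀ l, Deg r (F l)) →
      (∀ (v : L → ℝ) (B : ℝ), (∀ j, |∑ l, Λ j l * v l| ≤ B) → ∀ l, |v l| ≤ C₀ * B) →
      (∀ j x, W j x ≠ 0 → |∑ l, Λ j l * F l x| ≤ δ * ∑ l, |F l x|) →
      pav p (fun x => if ∀ l, F l x = 0 then 0 else 1) ≤ η

/-- PIECE `Pts`: linearly independent functions on `(0,1)` are independent on finitely many points.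
(The functionals `φ ↦ φ(t)` on the span span the dual space; choose a basis, finite dimension.) -/
def Pts : Prop :=
  ∀ (L : Type) [Fintype L] (φ : L → ℝ → ℝ),
    (∀ a : L → ℝ, (∀ t : ℝ, 0 < t → t < 1 → ∑ l, a l * φ l t = 0) → a = 0) →
    ∃ (n : ℕ) (t : Fin n → ℝ) (C₀ : ℝ), n ≤ Fintype.card L ∧ (∀ j, 0 < t j ∧ t j < 1) ∧ 0 < C₀ ∧
      ∀ (v : L → ℝ) (B : ℝ), (∀ j, |∑ l, φ l (t j) * v l| ≤ B) → ∀ l, |v l| ≤ C₀ * B

/-! ## real functions -/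

/-- polylogarithm series. -/
noncomputable def Lir (s : ℕ) (x : ℝ) : ℝ := ∑' k : ℕ, x ^ (k + 1) / ((k : ℝ) + 1) ^ s

/-- Zagier's single valued polylogarithm `∑_{k<n} (2^k B_k / k!) log^k|x| Li_{n-k}(x)` for real
`x`, `|x| < 1`, `n` odd. -/
noncomputable def Lsv (n : ℕ) (x : ℝ) : ℝ :=
  ∑ k ∈ range n, (2 ^ k * (bernoulli k : ℝ) / (k.factorial : ℝ)) * Real.log |x| ^ k * Lir (n - k) x

/-- PIECE `LIper`. With `X = log t` the sum is `∑_i t^i p_i(X)` with polynomials `p_i`: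
`p_0 = a₀`, and for `i ≥ 1`
`p_i(X) = (-1)^i (∑_n b_n(X) ∑_{k<n} β_k X^k i^(k-n) - a₁(X)/i)`, `β_k = 2^k B_k/k!`, `β_0 = 1`.
By uniqueness of such expansions (as `t → 0+`) all `p_i = 0`; as polynomials in `1/i` (infinitely
many `i`) the coefficient of `i^(-n)` for the largest `n` is `b_n`: so all `b_n = 0`, then `a₁ = 0`. -/
def LIper : Prop :=
  ∀ (m e : ℕ) (a₀ a₁ : Fin (m + 1) → ℝ) (b : ℕ → Fin (m + 1) → ℝ),
    (∀ t : ℝ, 0 < t → t < 1 →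
      ∑ k, a₀ k * Real.log t ^ (k : ℕ) + ∑ k, a₁ k * Real.log t ^ (k : ℕ) * Real.log (1 + t) +
        ∑ n ∈ (Icc 3 e).filter Odd, ∑ k, b n k * Real.log t ^ (k : ℕ) * Lsv n (-t) = 0) →
    a₀ = 0 ∧ a₁ = 0 ∧ ∀ n, Odd n → 3 ≤ n → n ≤ e → b n = 0

/-- PIECE `LsvCont`. -/
def LsvCont : Prop := ∀ n : ℕ, Odd n → 3 ≤ n → ContinuousOn (Lsv n) (Set.Ioo (-1) 0)

/-! ## vectors of rational numbers -/

/-- `ℝ`-vector space with basis the primes (other basis vectors are not used). -/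
abbrev Vr : Type := ℕ →₀ ℝ

/-- class of a natural number. -/
noncomputable def vn (n : ℕ) : Vr := n.factorization.mapRange (fun k : ℕ => (k : ℝ)) (by simp)

/-- class of a rational number. -/
noncomputable def vq (x : ℚ) : Vr := vn x.num.natAbs - vn x.den

/-- PIECE `VqArith`. -/
def VqArith : Prop :=
  (∀ a b : ℕ, a ≠ 0 → b ≠ 0 → vn (a * b) = vn a + vn b) ∧
  (∀ a b : ℕ, a ≠ 0 → b ≠ 0 → vq ((a : ℚ) / b) = vn a - vn b) ∧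
  (∀ x : ℚ, vq (-x) = vq x) ∧
  (∀ x y : ℚ, x ≠ 0 → y ≠ 0 → vq (x * y) = vq x + vq y) ∧
  (∀ p : ℕ, p.Prime → vn p = Finsupp.single p 1) ∧
  (∀ (n p : ℕ), ¬ p.Prime → vn n p = 0) ∧
  (∀ n : ℕ, n ≠ 0 → (vn n).sum (fun p c => c * Real.log p) = Real.log n)

/-- `(Q, P)` is an (inhomogeneous) Steinberg form:
`∑_μ Q_μ(x,...,x;1-x) + ∑_i ∑_μ P_{i,μ}(x,...,x) ψ_i(x) = 0` for rational `x ∈ (-1,0)`; here `Q_μ` has
`μ + 1` arguments and `P_{i,μ}` has `μ` arguments. -/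
def St {m e : ℕ} (Q : ∀ μ : Fin m, MultilinearMap ℝ (fun _ : Fin (μ : ℕ) => Vr) (Vr →ₗ[ℝ] ℝ))
    (P : ∀ (_ : Fin e) (μ : Fin m), MultilinearMap ℝ (fun _ : Fin (μ : ℕ) => Vr) ℝ)
    (ψ : Fin e → ℝ → ℝ) : Prop :=
  ∀ x : ℚ, -1 < x → x < 0 →
    ∑ μ, Q μ (fun _ => vq x) (vq (1 - x)) + ∑ i, (∑ μ, P i μ (fun _ => vq x)) * ψ i (x : ℝ) = 0

/-- linear independence of the functions `log^k t`, `log^k t log (1+t)`, `log^k t ψ_i(-t)`. -/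
def LInd {e : ℕ} (ψ : Fin e → ℝ → ℝ) : Prop :=
  ∀ (m : ℕ) (a₀ a₁ : Fin (m + 1) → ℝ) (b : Fin e → Fin (m + 1) → ℝ),
    (∀ t : ℝ, 0 < t → t < 1 →
      ∑ k, a₀ k * Real.log t ^ (k : ℕ) + ∑ k, a₁ k * Real.log t ^ (k : ℕ) * Real.log (1 + t) +
        ∑ i, ∑ k, b i k * Real.log t ^ (k : ℕ) * ψ i (-t) = 0) →
    a₀ = 0 ∧ a₁ = 0 ∧ b = 0

/-- typical points: for primes `P₁, P₂, l` there is `w` such that for every finite family of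
`A i` and exponents `e i ≥ 1` (`A i` prime to `P₁ P₂ l` and divisible by all other primes `≤ w`;
the `A i` have the same prime factors) there are `a, b, c` such that, for
`w = [a]+[A i]-[b]-[l^(e i)]` and `v = [c]-[b]-[l^(e i)]`, `∑_μ Q_μ(w, ..., w; v) = 0` and
`∑_μ P_{k,μ}(w, ..., w) = 0`. -/
def TPQ : Prop :=
  ∀ (m e : ℕ) (Q : ∀ μ : Fin m, MultilinearMap ℝ (fun _ : Fin (μ : ℕ) => Vr) (Vr →ₗ[ℝ] ℝ))
    (P : ∀ (_ : Fin e) (μ : Fin m), MultilinearMap ℝ (fun _ : Fin (μ : ℕ) => Vr) ℝ)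
    (ψ : Fin e → ℝ → ℝ),
    (∀ i, ContinuousOn (ψ i) (Set.Ioo (-1) 0)) → LInd ψ → St Q P ψ →
    ∀ (P₁ P₂ l : ℕ), P₁.Prime → P₂.Prime → l.Prime → P₁ ≠ P₂ → P₁ ≠ l → P₂ ≠ l → ∀ T : ℕ,
    ∃ w : ℕ, ∀ (I : Type) [Fintype I] (A ex : I → ℕ), Fintype.card I ≤ T →
      (∀ i, 1 ≤ ex i ∧ ex i ≤ T) →
      (∀ i, 0 < A i ∧ Nat.Coprime (A i) (P₁ * P₂ * l)) →
      (∀ i (p : ℕ), p.Prime → p ≤ w → p ∣ A i * (P₁ * P₂ * l)) →
      (∀ i j, (A i).primeFactors = (A j).primeFactors) →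
      ∃ a b c : ℕ, a ≠ 0 ∧ b ≠ 0 ∧ c ≠ 0 ∧ ∀ i,
        ∑ μ, Q μ (fun _ => vn a + vn (A i) - vn b - vn (l ^ ex i))
          (vn c - vn b - vn (l ^ ex i)) = 0 ∧
        ∀ k, ∑ μ, P k μ (fun _ => vn a + vn (A i) - vn b - vn (l ^ ex i)) = 0

/-- the analytic theorem. -/
def ANQ : Prop :=
  ∀ (m e : ℕ) (Q : ∀ μ : Fin m, MultilinearMap ℝ (fun _ : Fin (μ : ℕ) => Vr) (Vr →ₗ[ℝ] ℝ))
    (P : ∀ (_ : Fin e) (μ : Fin m), MultilinearMap ℝ (fun _ : Fin (μ : ℕ) => Vr) ℝ)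
    (ψ : Fin e → ℝ → ℝ),
    (∀ i, ContinuousOn (ψ i) (Set.Ioo (-1) 0)) → LInd ψ → St Q P ψ →
    (∀ (μ : Fin m) (s v : Vr), (∀ p, ¬ p.Prime → s p = 0) → (∀ p, ¬ p.Prime → v p = 0) →
      Q μ (fun _ => s) v = 0) ∧
    ∀ (k : Fin e) (μ : Fin m) (s : Vr), (∀ p, ¬ p.Prime → s p = 0) → P k μ (fun _ => s) = 0

/-- PIECE `EndQ`. Polarisation, downward induction on `μ` (the top one first; the forms whose
diagonals vanish can be dropped from all sums). Top `μ`, `d = μ + 1` arguments: it is enough to show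
`∑_σ Q_μ(p_σ(1),...,p_σ(μ);v) = 0` (`σ` in the symmetric group) for primes `p_i, v`, and similarly for
`P_{k,μ}`. Given `p_1..p_l ≠ v` and `p_{l+1} = ... = p_μ = v`, put `k = μ+1-l ≥ 1`; choose primes
`P₁ ≠ P₂` different from `v` and all `p_i`, `T = 2^(μ+1) + 2(μ+1)`, `w` from `TPQ` (with `l := v`),
`A₀` the product of all primes `≤ w` not in `{p_1..p_l, v, P₁, P₂}` and for
`ε : Fin l ⊕ Fin k → {0,1}`: `A_ε = A₀ ∏_{i ≤ l} p_i^(1+ε_i)`, `ex_ε = ∑_j (1+ε_j)`. So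
`(w,v') ↦ ∑_μ Q_μ(w,...,w;v')` vanishes on the cube with directions `([p_i], 0)`, `i ≤ l` and
`(-[v],-[v])` (`k` times); the `(μ+1)`-fold difference kills the lower degrees and is
`± k ∑_σ Q_μ(..)` (the last argument must come from one of the `k` directions
`(-[v],-[v])`): compare `T9h89/GF/Pol.lean` (`Pol1`, `Pol2`, there with values in `ℚ`) and
`T9h89/GF/End.lean`. For `P_{k,μ}`: directions `[p_1],...,[p_μ]` only (`l :=` a further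
prime with `ex = 1`; `μ = 0`: clear). -/
def EndQ : Prop := TPQ → ANQ

/-- the functional equation of all functionals on `D_1 C(ℚ)`. -/
def SpanPer : Prop :=
  ∀ (m N : ℕ) (Q : ∀ μ : Fin m, MultilinearMap ℝ (fun _ : Fin (μ : ℕ) => Vr) (Vr →ₗ[ℝ] ℝ))
    (P : ∀ (_ : ℕ) (μ : Fin m), MultilinearMap ℝ (fun _ : Fin (μ : ℕ) => Vr) ℝ),
    (∀ x : ℚ, -1 < x → x < 0 → ∑ μ, Q μ (fun _ => vq x) (vq (1 - x)) +
      ∑ j ∈ (Icc 3 N).filter Odd, (∑ μ, P j μ (fun _ => vq x)) * Lsv j (x : ℝ) = 0) →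
    (∀ (μ : Fin m) (s v : Vr), (∀ p, ¬ p.Prime → s p = 0) → (∀ p, ¬ p.Prime → v p = 0) →
      Q μ (fun _ => s) v = 0) ∧
    ∀ j, Odd j → 3 ≤ j → j ≤ N → ∀ (μ : Fin m) (s : Vr), (∀ p, ¬ p.Prime → s p = 0) →
      P j μ (fun _ => s) = 0

/-- PIECE `SpanPerOf` (bookkeeping: `ψ` = the `Lsv j`, `j` odd in `[3, N]`). -/
def SpanPerOf : Prop := ANQ → LIper → LsvCont → SpanPer

end Pool.Agent.T9h57.QD
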