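import Pool.Agent.T9h57.QD.Spec
import Pool.Agent.T9h42.GF.Spec2

/-!
# `D_1 C_n(ℚ)` is spanned by `Li_n(x)`: the pieces, part 2 (counting over `ℤ`)
-/

set_option autoImplicit false

namespace Pool.Agent.T9h57.QD

open Finset Pool.Agent.T9h42.GF

/-! ## 1. Definitions -/

/-- integers in `(a, b]` prime to `M`. -/
def Kp (M a b : ℕ) : Finset ℕ := (Ioc a b).filter (fun x => Nat.Coprime x M)

/-- sum of the reciprocals. -/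
noncomputable def Zs (S : Finset ℕ) : ℝ := ∑ x ∈ S, 1 / (x : ℝ)

/-- logarithmic probability on `S`. -/
noncomputable def lw (S : Finset ℕ) (x : ℕ) : ℝ := 1 / (x : ℝ) / Zs S

/-- expectation of `f (x_1, ..., x_n)`, the `x_i` independent with probability `lw S`. -/
noncomputable def ex (n : ℕ) (S : Finset ℕ) (f : (Fin n → ℕ) → ℝ) : ℝ :=
  ∑ x ∈ Fintype.piFinset (fun _ : Fin n => S), (∏ i, lw S (x i)) * f x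

open Classical in
/-- indicator. -/
noncomputable def ind (p : Prop) : ℝ := if p then 1 else 0

/-! ## 2. Elementary pieces -/

/-- PIECE `LSieve`: the additive large sieve inequality (with any constant). -/
def LSieve : Prop :=
  ∃ C : ℝ, 0 < C ∧ ∀ (N Q : ℕ) (a : ℕ → ℝ), 1 ≤ N → 1 ≤ Q →
    ∑ h ∈ Icc 1 Q, ∑ b ∈ (range h).filter (fun b => Nat.Coprime b h),
        ‖∑ n ∈ Icc 1 N, (a n : ℂ) *
          Complex.exp (2 * Real.pi * Complex.I * ((b : ℂ) * (n : ℂ) / (h : ℂ)))‖ ^ 2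
      ≤ C * ((N : ℝ) + (Q : ℝ) ^ 2) * ∑ n ∈ Icc 1 N, a n ^ 2

/-- PIECE `RoughTau`. -/
def RoughTau : Prop :=
  ∀ w n : ℕ, 2 ≤ w → n ≠ 0 → (∀ p, p.Prime → p ∣ n → w ≤ p) → n.divisors.card ≤ 2 ^ Nat.log w n

/-- PIECE `DivProdZ`. Induction on `j`: `h ∣ x y ⟹ h/g ∣ y` for `g = gcd(h,x)`. -/
def DivProdZ : Prop :=
  ∀ (S : Finset ℕ) (h : ℕ) (B : ℝ) (j : ℕ), 0 < h → 0 ≤ B →
    (∀ g, g ∣ h → ∑ x ∈ S, lw S x * ind (g ∣ x) ≤ B / g) →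
    ex j S (fun x => ind (h ∣ ∏ i, x i)) ≤ (h.divisors.card : ℝ) ^ j * B ^ j / h

/-- PIECE `DivX`: divisibility in one slot. (If `g` is prime to `M` the sum is
`1/g ∑_{y ∈ (D/g, RD/g], (y,M)=1} 1/y / Z`, otherwise `0`; the sum of `1/x` over `(A, B]`, `x` prime
to `M`, is `φ(M)/M log(B/A) + O(M/A)`.) -/
def DivX : Prop :=
  ∀ (M R : ℕ), 0 < M → 2 ≤ R → ∃ C D₀ : ℕ, ∀ D : ℕ, D₀ ≤ D → ∀ S : Finset ℕ, S = Kp M D (R * D) →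
    S.Nonempty ∧ ∀ g : ℕ, 0 < g → ∑ x ∈ S, lw S x * ind (g ∣ x) ≤ C / g ∧
      (C * g ≤ D → ∑ x ∈ S, lw S x * ind (g ∣ x) ≤ 2 / g)

/-- PIECE `LenX`: intervals in one slot. -/
def LenX : Prop :=
  ∀ (M R : ℕ), 0 < M → 2 ≤ R → ∃ (C : ℝ) (D₀ : ℕ), ∀ D : ℕ, D₀ ≤ D → ∀ S : Finset ℕ,
    S = Kp M D (R * D) → ∀ a b : ℝ, (D : ℝ) ≤ a → a ≤ b → b ≤ R * D →
    |∑ x ∈ S, lw S x * ind (a < x ∧ (x : ℝ) ≤ b) - Real.log (b / a) / Real.log R| ≤ C / D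

/-- PIECE `EquiX`: residue classes modulo `q₀` (`q₀` composed of primes dividing `M`) in one slot. -/
def EquiX : Prop :=
  ∀ (M q₀ R : ℕ), 0 < M → 0 < q₀ → (∀ p, p.Prime → p ∣ q₀ → p ∣ M) → 2 ≤ R →
    ∃ (C : ℝ) (D₀ : ℕ), ∀ D : ℕ, D₀ ≤ D → ∀ S : Finset ℕ, S = Kp M D (R * D) →
    ∀ (ρ : ℕ) (a b : ℝ), Nat.Coprime ρ q₀ →
    |∑ x ∈ S, lw S x * ind (a < x ∧ (x : ℝ) ≤ b ∧ x ≡ ρ [MOD q₀]) -
      (∑ x ∈ S, lw S x * ind (a < x ∧ (x : ℝ) ≤ b)) / (q₀.totient : ℝ)| ≤ C / D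

/-- PIECE `TwistX`: additive characters of conductor `h > 1`, prime to `M`, in one slot (partial
summation; geometric sums over progressions modulo `M q₀`). -/
def TwistX : Prop :=
  ∀ (M q₀ R : ℕ), 0 < M → 0 < q₀ → (∀ p, p.Prime → p ∣ q₀ → p ∣ M) → 2 ≤ R →
    ∃ (C : ℝ) (D₀ : ℕ), 0 ≤ C ∧ ∀ D : ℕ, D₀ ≤ D → ∀ S : Finset ℕ, S = Kp M D (R * D) →
    ∀ (ρ : ℕ) (a b : ℝ) (h j : ℕ), 1 < h → Nat.Coprime h M → Nat.Coprime j h →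
    ‖∑ x ∈ S, ((lw S x * ind (a < x ∧ (x : ℝ) ≤ b ∧ x ≡ ρ [MOD q₀]) : ℝ) : ℂ) *
      Complex.exp (2 * Real.pi * Complex.I * ((j : ℂ) * (x : ℂ) / (h : ℂ)))‖ ≤ C * h / D

/-- PIECE `CCount`. -/
def CCount : Prop :=
  ∀ (M q₀ : ℕ), 0 < M → 0 < q₀ → (∀ p, p.Prime → p ∣ q₀ → p ∣ M) → ∃ C : ℝ, 0 ≤ C ∧
    ∀ (τ κ a b : ℕ), 0 < τ → Nat.Coprime τ M → Nat.Coprime κ q₀ → a ≤ b →
    |(((Ioc a b).filter (fun c => Nat.Coprime c M ∧ c ≡ κ [MOD q₀ * τ])).card : ℝ) -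
      ((b : ℝ) - a) * (M.totient : ℝ) / (M * ((q₀.totient : ℝ) * τ))| ≤ C

/-! ## 3. The sieve bound -/

/-- the variance bound on average over the moduli `∏ y`, see `SieveBdOf`. -/
def SieveBd : Prop :=
  ∀ (n k e₀ : ℕ) (ε : ℝ), e₀ * k < n → 1 ≤ e₀ → 0 < ε → ∃ w : ℕ,
    ∀ (M q₀ R₁ R₂ H : ℕ), 0 < M → (∀ p, p.Prime → p ≤ w → p ∣ M) → 0 < q₀ →
      (∀ p, p.Prime → p ∣ q₀ → p ∣ M) → 2 ≤ R₁ → 2 ≤ R₂ → 1 ≤ H →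
    ∃ D₀ : ℕ, ∀ D : ℕ, D₀ ≤ D → ∀ X Y : Finset ℕ, X = Kp M D (R₁ * D) →
      Y = Kp M (H * D ^ e₀) (R₂ * (H * D ^ e₀)) → ∀ (ρ : ℕ) (a b : ℝ),
    ex k Y (fun y => ((∏ i, y i : ℕ) : ℝ) * ex n X (fun x => ex n X (fun x' =>
        ind (a < (∏ i, x i : ℕ) ∧ ((∏ i, x i : ℕ) : ℝ) ≤ b ∧ ∏ i, x i ≡ ρ [MOD q₀]) *
        ind (a < (∏ i, x' i : ℕ) ∧ ((∏ i, x' i : ℕ) : ℝ) ≤ b ∧ ∏ i, x' i ≡ ρ [MOD q₀]) *
        ind (∏ i, x i ≡ ∏ i, x' i [MOD ∏ i, y i])))) ≤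
      (ex n X (fun x =>
        ind (a < (∏ i, x i : ℕ) ∧ ((∏ i, x i : ℕ) : ℝ) ≤ b ∧ ∏ i, x i ≡ ρ [MOD q₀]))) ^ 2 + ε

/-- PIECE `SieveBdOf`.
Let `A_f = ∑_{x ∈ X^n, ∏ x = f} ∏ lw(x_i)` for `f ∈ (a,b]`, `f ≡ ρ (q₀)` (`0` otherwise), `Â(θ) = ∑ A_f e(fθ)`.
For `τ = ∏ y`: `τ ∑_{f ≡ f' (τ)} A_f A_f' = ∑_{b mod τ} |Â(b/τ)|² = ∑_{h ∣ τ} ∑*_{b mod h} |Â(b/h)|²`; `h = 1`
gives `(∑ A)²`. All `h ∣ τ` are prime to `M`, so `h = 1` or all prime factors of `h` are `> w`. So the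
difference is `≤ ∑_{h > w} P(h ∣ ∏ y) ∑*_b |Â(b/h)|²`. Put `D₁ = ⌊D^(1/4)⌋`.
(a) `h ≤ D₁`: condition on `x_2, ..., x_n`, `v' = ∏_{i ≥ 2} x_i`; if `h ∤ v'` then `b v'/h` is, in lowest
terms, `b'/h'`, `h' > 1` and `TwistX` gives `C h'/D` (the class of `x_1` modulo `q₀` is determined
by `x_1 v' ≡ ρ`); so `|Â(b/h)| ≤ P(h ∣ v') + C h/D ≤ (2τ(h))^(n-1)/h + C h/D` (`DivProdZ`, `B = 2`, from
`DivX`), `P(h ∣ ∏ y) ≤ (2τ(h))^k/h`; `τ(h) ≤ 2^(log_w h) = h^(1/log₂ w)` (`RoughTau`): the sum over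
`w < h ≤ D₁` is `≤ 2^(2n+k+1) ∑_{h>w} h^(-7/4) + C' D₁^4/D²` for large `w`.
(b) `Q < h ≤ 2Q`, `D₁ ≤ Q ≤ C D^(e₀ k) ≤ C D^(n-1)`: `P(h ∣ ∏ y) ≤ (C τ(h))^k/h`, and `LSieve` with
`N = (R₁ D)^n`, `∑ A_f² ≤ max A_f ≤ τ(f)^n/(D Z_X)^n`: the block is at most
`C D^(small) (1/Q) (D^n + Q²)/D^n`, with `small = O_{n,k}(1/log w) ≤ 1/8`. -/
def SieveBdOf : Prop := LSieve → RoughTau → DivProdZ → DivX → TwistX → SieveBd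

/-- few pairs `∏ u`, `∏ y` are not coprime. -/
def NonCopZ : Prop :=
  ∀ (j k e₀ : ℕ) (ε : ℝ), 1 ≤ e₀ → 0 < ε → ∃ w : ℕ,
    ∀ (M R₁ R₂ H : ℕ), 0 < M → (∀ p, p.Prime → p ≤ w → p ∣ M) → 2 ≤ R₁ → 2 ≤ R₂ → 1 ≤ H →
    ∃ D₀ : ℕ, ∀ D : ℕ, D₀ ≤ D → ∀ X Y : Finset ℕ, X = Kp M D (R₁ * D) →
      Y = Kp M (H * D ^ e₀) (R₂ * (H * D ^ e₀)) →
    ex j X (fun u => ex k Y (fun y => ind (¬ Nat.Coprime (∏ i, u i) (∏ i, y i)))) ≤ ε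

/-- PIECE `NonCopOf`. A common prime `p` divides some `u_i` and some `y_i`, and `p > w` (prime to `M`).
By `DivX` the probability is `≤ j k (∑_{p > w} 4/p² + ∑_{p > D/C} C²/p²)`. -/
def NonCopOf : Prop := DivX → NonCopZ

/-! ## 4. The core estimate -/

/-- equidistribution of `A₀ ∏ u ∏ v` modulo `q₀ ∏ y` in the classes `G c`, for most `u, y, c`. -/
def CoreS : Prop :=
  ∀ (j n k e₀ c₀ q₀ : ℕ) (ε : ℝ), e₀ * k < n → e₀ * k < c₀ → 1 ≤ e₀ → 0 < q₀ → 0 < ε → ∃ w : ℕ,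
    ∀ (M R₁ R₂ H A₀ G : ℕ), 0 < M → (∀ p, p.Prime → p ≤ w → p ∣ M) →
      (∀ p, p.Prime → p ∣ q₀ → p ∣ M) → 2 ≤ R₁ → 2 ≤ R₂ → 1 ≤ H → 0 < A₀ → 0 < G →
      Nat.Coprime (A₀ * G) q₀ → (∀ p, p.Prime → p ∣ A₀ * G → p ∣ M) →
    ∀ σ₁ σ₂ : ℝ, 0 < σ₁ → σ₁ < σ₂ → ∃ D₀ : ℕ, ∀ D : ℕ, D₀ ≤ D → ∀ X Y C : Finset ℕ,
      X = Kp M D (R₁ * D) → Y = Kp M (H * D ^ e₀) (R₂ * (H * D ^ e₀)) →
      C = Kp M (D ^ c₀) (2 * D ^ c₀) →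
    ex j X (fun u => ex k Y (fun y => (∑ c ∈ C,
      |(q₀.totient : ℝ) * ((∏ i, y i : ℕ) : ℝ) *
          ex n X (fun v => ind (σ₁ * (G * c : ℕ) < (A₀ * (∏ i, u i) * ∏ i, v i : ℕ) ∧
            ((A₀ * (∏ i, u i) * ∏ i, v i : ℕ) : ℝ) ≤ σ₂ * (G * c : ℕ)) *
            ind (A₀ * (∏ i, u i) * ∏ i, v i ≡ G * c [MOD q₀ * ∏ i, y i])) -
        ex n X (fun v => ind (σ₁ * (G * c : ℕ) < (A₀ * (∏ i, u i) * ∏ i, v i : ℕ) ∧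
            ((A₀ * (∏ i, u i) * ∏ i, v i : ℕ) : ℝ) ≤ σ₂ * (G * c : ℕ)))|) / (C.card : ℝ))) ≤ ε

/-- PIECE `CoreSOf`. Fix `u`, `y`; `τ = ∏ y`, `A = A₀ ∏ u`, `B = φ(q₀) τ`, `γ = φ(M)/M`,
`win(c,v) : σ₁ G c < A v ≤ σ₂ G c`; `S(c)`, `p(c)` the two expectations.
If `τ` and `∏ u` are not coprime: `E_c |B S - p| ≤ B E_c S + 1 ≤ 3` (`CCount`: one class of `c` modulo
`q₀ τ` for each `v`); use `NonCopZ`. If they are coprime, `A v ≡ G c ≡ A v'` implies `v ≡ v' (q₀ τ)`;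
for fixed `v, v'` the `c` with `win(c,v)`, `win(c,v')` form an interval, so by `CCount` (moduli `q₀ τ`
and `1`)
`∑_{c ∈ C} (B S - p)² = γ ∑_{c' ∈ (D^c₀, 2D^c₀]} (B P_{v,v'}(win(c',v), win(c',v'), v ≡ v' (q₀ τ)) - p(c')²)`
`+ O(B² P(v ≡ v' (q₀ τ)) + B + 1)`. Average over `y`; split `v ≡ v' (q₀)` according to the
`φ(q₀)` unit classes `ρ`; `SieveBd` for each `c'`, `ρ` (`(a,b] = (σ₁Gc'/A, σ₂Gc'/A]`) gives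
`φ(q₀) ∑_ρ (P(win, v ≡ ρ)² + ε')`, and `P(win, v ≡ ρ) = p(c')/φ(q₀) + O(1/D)` by `EquiX` for the
first coordinate of `v`. So `E_y (1/#C) ∑_c (B S - p)² ≤ φ(q₀)² ε' + O(1/D) + O(D^(e₀ k - c₀))`. -/
def CoreSOf : Prop := SieveBd → NonCopZ → CCount → EquiX → LenX → CoreS

/-- PIECE `Circle` (from `LenX`): `K` log `P₁` + (`n` free slots) is uniform modulo `log P₁`. Fix
`v_2, ..., v_n`; the conditions on `P₁^K v_1` cut the interval into (at most two) pieces which lie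
in `(D, P₁ D]` after division by `P₁^K`; `a ≥ P₁ (P₁ D)^n` makes all `K ≥ 1`. -/
def Circle : Prop :=
  ∀ (n M P₁ : ℕ), 1 ≤ n → 0 < M → 2 ≤ P₁ → ∃ (C : ℝ) (D₀ : ℕ), ∀ D : ℕ, D₀ ≤ D →
    ∀ S : Finset ℕ, S = Kp M D (P₁ * D) → ∀ (a b : ℝ) (T : ℕ),
    (P₁ : ℝ) * (P₁ * D : ℝ) ^ n ≤ a → a ≤ b → b ≤ P₁ * a → b ≤ (P₁ : ℝ) ^ T * (D : ℝ) ^ n →
    |∑ K ∈ Icc 1 T, ex n S (fun v => ind (a < (P₁ ^ K * ∏ i, v i : ℕ) ∧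
        ((P₁ ^ K * ∏ i, v i : ℕ) : ℝ) ≤ b)) - Real.log (b / a) / Real.log P₁| ≤ C / D

/-- PIECE `CircleOf`. -/
def CircleOf : Prop := LenX → Circle

/-- weight of the solutions of `A P₁^K a + l^e b = P₂^L c` with `A P₁^K a / (P₂^L c) ∈ (σ₁, σ₂]`. -/
noncomputable def Wp (P₁ P₂ l e A T : ℕ) (κ σ₁ σ₂ : ℝ) (a b c : ℕ) : ℝ :=
  κ * ((l ^ e * b : ℕ) : ℝ) * ∑ K ∈ Icc 1 T, ∑ L ∈ Icc 1 T,
    ind (A * P₁ ^ K * a + l ^ e * b = P₂ ^ L * c ∧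
      σ₁ * (P₂ ^ L * c : ℕ) < (A * P₁ ^ K * a : ℕ) ∧
      ((A * P₁ ^ K * a : ℕ) : ℝ) ≤ σ₂ * (P₂ ^ L * c : ℕ))

/-- the normalising factor, `Y` the slot of the factors of `b`. -/
noncomputable def kap (P₁ R : ℕ) (σ₁ σ₂ : ℝ) (Y : Finset ℕ) : ℝ :=
  Zs Y * Real.log P₁ / (R * Real.log (σ₂ / σ₁))

/-- the core estimate: `2r` of the `x`-slots (`u`), all but one (`2r`) of the `y`-slots (`t`) and `c`
are fixed, `(2r+1)^2 - 2r` `x`-slots (`v`) and one `y`-slot are free. -/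
def CoreZ : Prop :=
  ∀ (P₁ P₂ l r : ℕ) (ε : ℝ), P₁.Prime → P₂.Prime → l.Prime → P₁ ≠ P₂ → P₁ ≠ l → P₂ ≠ l → 1 ≤ r →
    0 < ε → ∃ R : ℕ, 1 ≤ R ∧ ∀ (σ₁ σ₂ : ℝ) (e : ℕ), 0 < σ₁ → σ₁ < σ₂ → σ₂ < 1 →
      σ₂ ≤ 2 * σ₁ → 1 - σ₁ ≤ 2 * (1 - σ₂) → 1 ≤ e →
    ∃ w : ℕ, ∀ A : ℕ, 0 < A → Nat.Coprime A (P₁ * P₂ * l) →
      (∀ p, p.Prime → p ≤ w → p ∣ A * (P₁ * P₂ * l)) →
    ∃ H₀ : ℕ, ∀ H : ℕ, H₀ ≤ H → ∃ T D₀ : ℕ, ∀ D : ℕ, D₀ ≤ D → ∀ X Y C : Finset ℕ,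
      X = Kp (A * (P₁ * P₂ * l)) D (P₁ * D) →
      Y = Kp (A * (P₁ * P₂ * l)) (H * D ^ (2 * r + 1)) (P₂ ^ R * (H * D ^ (2 * r + 1))) →
      C = Kp (A * (P₁ * P₂ * l)) (D ^ (2 * r + 1) ^ 2) (2 * D ^ (2 * r + 1) ^ 2) →
      X.Nonempty ∧ Y.Nonempty ∧ C.Nonempty ∧
      ex (2 * r) X (fun u => ex (2 * r) Y (fun t => (∑ c ∈ C,
        |ex ((2 * r + 1) ^ 2 - 2 * r) X (fun v => ex 1 Y (fun y =>
          Wp P₁ P₂ l e A T (kap P₁ R σ₁ σ₂ Y) σ₁ σ₂ ((∏ i, u i) * ∏ i, v i)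
            ((∏ i, t i) * ∏ i, y i) c)) - 1|) / (C.card : ℝ))) ≤ ε

/-- PIECE `CoreZOf`. `N = (2r+1)²`, `s = 2r+1`, `n = N - 2r`, `E = H D^s` (so `E^s = H^s D^N`),
`τ = ∏ t`, `ω = log(σ₂/σ₁)/log P₁`, `Δ = P₂^L c - A P₁^K u v`, `κ = Z_Y/(R ω)`.
As `κ l^e τ y * lw(y) = l^e τ/(R ω)`, the inner expectation is
`𝒲 = (l^e τ/(R ω)) ∑_{K,L} P_v(σ₁ P₂^L c < A P₁^K u v ≤ σ₂ P₂^L c, l^e τ ∣ Δ, l^(e+1) ∤ Δ, E < Δ/(l^e τ) ≤ P₂^R E)`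
(`Δ/(l^e τ)` is automatically prime to `A P₁ P₂`, as `K, L ≥ 1`; prime to `l` iff `l^(e+1) ∤ Δ`).
For `E/(1-σ₂) < P₂^L c/(l^e τ) ≤ P₂^R E/(1-σ₁)` (between `R - 2` and `R` values of `L`, all `≥ 1` for
large `H`) the last condition follows from the first; it fails unless
`E/(1-σ₁) < P₂^L c/(l^e τ) ≤ P₂^R E/(1-σ₂)` (at most `R + 2` values).
By `CoreS` with `q₀ = l^e` and `q₀ = l^(e+1)` (`A₀ = A P₁^K`, `G = P₂^L`, `M = A P₁ P₂ l`):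
`l^e τ P_v(win, l^e τ ∣ Δ, l^(e+1) ∤ Δ)` is `p_{K,L} = P_v(win)` up to a small error on average, since
`l^e/φ(l^e) - l^e/φ(l^(e+1)) = 1`; and `∑_K p_{K,L} = ω + O(1/D)` for each such `L` (`Circle`,
`a = σ₁ P₂^L c/(A u)`; large `H` gives `a ≥ P₁ (P₁ D)^n`, `T` is chosen large in terms of `H, A, l^e`).
So `|𝒲 - 1| ≤ 2/R + O(1/D) + (1/(R ω)) ∑_{(K,L)} (error)_{K,L}`; choose `R ≥ 8/ε`. Only a number of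
pairs `(K, L)` bounded in terms of `r, R, σ₁, σ₂` occurs (for the others there are no `c, u, v, t`
with `win` and `y ∈ Y`): `P₂^L ∈ [l^e H^s/2, l^e H^s P₂^(R s)/(1-σ₂)]` and, given `L`, `P₁^K` is between two
bounds with quotient `2 P₁^N σ₂/σ₁`; so `w` can be chosen before `A`, `H`, `T`. -/
def CoreZOf : Prop := CoreS → Circle → CoreZ

/-! ## 5. Flat marginals on the product space, typical points -/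

/-- the slots. -/
def Slz (X Y C : Finset ℕ) (N s : ℕ) : Ix N s → Finset ℕ
  | none => C
  | some (Sum.inl _) => X
  | some (Sum.inr _) => Y

/-- points of a slot. -/
abbrev Ptz (X Y C : Finset ℕ) (N s : ℕ) (i : Ix N s) : Type := {x : ℕ // x ∈ Slz X Y C N s i}

open Classical in
/-- the probabilities: uniform for `c`, logarithmic for the other slots. -/
noncomputable def pz (X Y C : Finset ℕ) (N s : ℕ) (i : Ix N s) (x : Ptz X Y C N s i) : ℝ :=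
  if i = none then 1 / (C.card : ℝ) else lw (Slz X Y C N s i) x.1

/-- the weight on the product space. -/
noncomputable def Wz (X Y C : Finset ℕ) (N s : ℕ) (P₁ P₂ l e A T : ℕ) (κ σ₁ σ₂ : ℝ)
    (x : ∀ i, Ptz X Y C N s i) : ℝ :=
  Wp P₁ P₂ l e A T κ σ₁ σ₂ (∏ i, (x (some (Sum.inl i))).1) (∏ j, (x (some (Sum.inr j))).1)
    (x none).1

/-- the count theorem. -/
def CountZ : Prop :=
  ∀ (P₁ P₂ l r : ℕ) (ε : ℝ), P₁.Prime → P₂.Prime → l.Prime → P₁ ≠ P₂ → P₁ ≠ l → P₂ ≠ l → 1 ≤ r →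
    0 < ε → ∃ R : ℕ, 1 ≤ R ∧ ∀ (σ₁ σ₂ : ℝ) (e : ℕ), 0 < σ₁ → σ₁ < σ₂ → σ₂ < 1 →
      σ₂ ≤ 2 * σ₁ → 1 - σ₁ ≤ 2 * (1 - σ₂) → 1 ≤ e →
    ∃ w : ℕ, ∀ A : ℕ, 0 < A → Nat.Coprime A (P₁ * P₂ * l) →
      (∀ p, p.Prime → p ≤ w → p ∣ A * (P₁ * P₂ * l)) →
    ∃ H₀ : ℕ, ∀ H : ℕ, H₀ ≤ H → ∃ T D₀ : ℕ, ∀ D : ℕ, D₀ ≤ D → ∀ X Y C : Finset ℕ,
      X = Kp (A * (P₁ * P₂ * l)) D (P₁ * D) →
      Y = Kp (A * (P₁ * P₂ * l)) (H * D ^ (2 * r + 1)) (P₂ ^ R * (H * D ^ (2 * r + 1))) →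
      C = Kp (A * (P₁ * P₂ * l)) (D ^ (2 * r + 1) ^ 2) (2 * D ^ (2 * r + 1) ^ 2) →
      X.Nonempty ∧ Y.Nonempty ∧ C.Nonempty ∧
      ∀ U : Finset (Ix ((2 * r + 1) ^ 2) (2 * r + 1)), U.card ≤ 2 * r →
        pav (pz X Y C ((2 * r + 1) ^ 2) (2 * r + 1)) (fun x =>
          |pce (pz X Y C ((2 * r + 1) ^ 2) (2 * r + 1)) U
            (Wz X Y C ((2 * r + 1) ^ 2) (2 * r + 1) P₁ P₂ l e A T (kap P₁ R σ₁ σ₂ Y) σ₁ σ₂) x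
            - 1|) ≤ ε

/-- PIECE `CountOfCoreZ` (pure bookkeeping, as `T9h71/GF/CountOfCore.lean`). `U ⊆ U'`, where the
complement of `U'` consists of `(2r+1)² - 2r` `x`-slots and one `y`-slot (`none ∈ U'`);
`pav |pce U W - 1| ≤ pav |pce U' W - 1|`, and the latter is the triple sum in `CoreZ`. -/
def CountOfCoreZ : Prop := CoreZ → CountZ

/-- PIECE `TypQ` (cf. `T9h46/GF/TP.lean`: `deg_multi` etc.). Let `r = m + 1`, `lg v = ∑ v_p log p`,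
`e_i = single P_i 1`, `π_i v = v - (lg v/log P_i) e_i`. For a solution `A P₁^K a + l^ex b = P₂^L c`,
`x = -t`, `t = A P₁^K a/(l^ex b) = σ/(1-σ)`, `σ = A P₁^K a/(P₂^L c)`, put
`w = [a]+[A]-[b]-[l^ex]`, `v = [c]-[b]-[l^ex]`: `vq x = w + K e₁ = π₁ w + (log t/log P₁) e₁` and
`vq (1-x) = v + L e₂ = π₂ v + (log (1+t)/log P₂) e₂`. Expanding `St` at `x` gives
`∑_k Φ⁰_k log^k t + ∑_k Φ¹_k log^k t log(1+t) + ∑_i ∑_k Φ^i_k log^k t ψ_i(-t) = 0` where the `Φ` are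
multilinear expressions in `π₁ w`, `π₂ v`, so of degree `≤ r` in the slots (`w`, `v` are sums over the
slots). `LInd` and `Pts` give points `t_j` and `C₀`; `η = 1/(2T)`; `δ` from `RobustVec`; windows
`t ∈ (t_j(1-θ), t_j(1+θ))` in which the functions change by less than `δ`; then `CountZ` with
`ε = δ` for all windows and all exponents `≤ T` (`R` is common, take the maximum of the `w`, `H₀`,
`D₀`; the sets `X, Y, C` are the same for all `i : I` as the `A i` have the same prime factors).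
For each `i : I` `RobustVec` says that all `Φ` vanish outside a set of probability `≤ η`; union bound:
there is a point where all `Φ` vanish for all `i`; and `∑_μ Q_μ(w,..,w;v)`, `∑_μ P_{k,μ}(w,...,w)` are linear
combinations of the `Φ` (put `log t = lg w`, `log(1+t) = lg v`). -/
def TypQ : Prop := RobustVec → Pts → VqArith → CountZ → TPQ

end Pool.Agent.T9h57.QD
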